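import Pool.Agent.Lib.MP_c8786f_co.Elec.Odd

/-!
Let `k ≥ 3` be odd.  A finite multigraph on `n` vertices (edge `e` oriented from `s e` to `t e`) in
which every edge cut of odd size has at least `k` edges has an integer flow with
(k - 2)(n - 1) + 1 ≤ |f e| ≤ (k + 2)(n - 1) + 1; so its circular flow number is less than
`2 k / (k - 2)`.  For `k = 3`: every bridgeless graph has circular flow number at most `6 - 4 / n`.
-/

namespace Pool.Agent.Results.MP_c8786f_co.OddConnectivity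

open Finset

theorem result {V E : Type} [Fintype V] [Fintype E] [DecidableEq V] (s t : E → V)
    (k : ℕ) (hk : Odd k) (hk3 : 3 ≤ k)
    (H : ∀ X : Finset V, Odd (univ.filter fun e => ¬(s e ∈ X ↔ t e ∈ X)).card →
      k ≤ (univ.filter fun e => ¬(s e ∈ X ↔ t e ∈ X)).card) :
    ∃ f : E → ℤ,
      (∀ e, ((k : ℤ) - 2) * ((Fintype.card V : ℤ) - 1) + 1 ≤ |f e| ∧
        |f e| ≤ ((k : ℤ) + 2) * ((Fintype.card V : ℤ) - 1) + 1) ∧
      ∀ v, ∑ e ∈ univ.filter (fun e => s e = v), f e = ∑ e ∈ univ.filter (fun e => t e = v), f e := by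
  rcases isEmpty_or_nonempty V with hV | hV
  · exact ⟨0, fun e => hV.elim (s e), fun v => hV.elim v⟩
  obtain ⟨j, rfl⟩ : ∃ j, k = j + 2 := ⟨k - 2, by omega⟩
  obtain ⟨n, hn⟩ : ∃ n, Fintype.card V = n + 1 :=
    ⟨_, (Nat.succ_pred_eq_of_pos Fintype.card_pos).symm⟩
  obtain ⟨f, h1, h2⟩ := (Pool.Agent.Lib.MP_c8786f_co.Elec.odd_mflow hk hn.le _ s t rfl
    (fun X => by rw [Pool.Agent.Lib.MP_c8786f_co.Elec.cut_eq]; exact H X)).int (by omega)
  refine ⟨f, fun e => ?_, h2⟩
  have := h1 e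
  rw [hn]
  push_cast at this ⊢
  constructor <;> nlinarith [this.1, this.2]

end Pool.Agent.Results.MP_c8786f_co.OddConnectivity
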