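import Pool.Agent.Lib.MP_c8786f_co.Loc.F

/-!
Reducible sets in two-edge-connected cubic multigraphs (edge `e` oriented from `s e` to `t e`).
Let `p / q ≥ 4 a / (a - 1)` and `g = 2 ^ (2 ^ 76 * a ^ 5) * (N + 1) ^ 2`.  If the graph has more
than `2 N` vertices and every connected set `Y` of fewer than `g` vertices spans fewer than
`|Y| + N` edges (at most `N` independent cycles), then there is a set `B` containing a cycle such
that every flow with `q ≤ |f e| ≤ p - q` of the graph with `B` contracted extends to the whole graph.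
-/

namespace Pool.Agent.Results.MP_c8786f_co.SparseCycles

open Finset

theorem result (a p q N : ℕ) (hp : 0 < p) (hpq : 4 * a * q + p ≤ a * p) :
    ∀ (V E : Type) [Fintype V] [Fintype E] [DecidableEq V] (s t : E → V),
    (∀ v, (univ.filter fun e => s e = v).card + (univ.filter fun e => t e = v).card = 3) →
    (∀ Y : Finset V, Y.Nonempty → Y ≠ univ →
      2 ≤ (univ.filter fun e => ¬(s e ∈ Y ↔ t e ∈ Y)).card) →
    2 * N < Fintype.card V →
    (∀ Y : Finset V, Y.Nonempty → Y.card < 2 ^ (2 ^ 76 * a ^ 5) * (N + 1) ^ 2 →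
      (∀ Z ⊆ Y, Z.Nonempty → Z ≠ Y → ∃ e, s e ∈ Y ∧ t e ∈ Y ∧ ¬(s e ∈ Z ↔ t e ∈ Z)) →
      (univ.filter fun e => s e ∈ Y ∧ t e ∈ Y).card < Y.card + N) →
    ∃ B : Finset V, (∃ C : Finset E, C.Nonempty ∧ (∀ e ∈ C, s e ∈ B ∧ t e ∈ B) ∧
        ∀ v, Even ((C.filter fun e => s e = v).card + (C.filter fun e => t e = v).card)) ∧
      ∀ f : E → ℤ,
      (∀ e, ¬(s e ∈ B ∧ t e ∈ B) → (q : ℤ) ≤ |f e| ∧ |f e| ≤ p - q) →
      (∀ v, v ∉ B → (p : ℤ) ∣
        ∑ e ∈ univ.filter (fun e => s e = v), f e - ∑ e ∈ univ.filter (fun e => t e = v), f e) →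
      ∃ f' : E → ℤ, (∀ e, (q : ℤ) ≤ |f' e| ∧ |f' e| ≤ p - q) ∧
        (∀ e, ¬(s e ∈ B ∧ t e ∈ B) → (p : ℤ) ∣ f' e - f e) ∧
        ∀ v, ∑ e ∈ univ.filter (fun e => s e = v), f' e =
          ∑ e ∈ univ.filter (fun e => t e = v), f' e :=
  Pool.Agent.Lib.MP_c8786f_co.W5.finalS a p q N hp hpq

end Pool.Agent.Results.MP_c8786f_co.SparseCycles
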