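import Pool.Agent.Lib.MP_c8786f_co.Elec.Cover

/-!
Let every edge `e` (oriented from `s e` to `t e`) of a finite multigraph carry a width `a e`, and
suppose that every partition of the vertices into `r` parts (the fibres of a map `q`) is crossed by
edges of total width at least `m (r - 1)`.  Then every boundary modulo `m` is the boundary of some
`x` with `l e ≤ x e ≤ l e + a e`.
-/

namespace Pool.Agent.Results.MP_c8786f_co.TreePacking

open Finset

theorem result {V E : Type} [Fintype V] [Fintype E] [DecidableEq V] (s t : E → V)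
    (m : ℕ) (hm : 0 < m) (a : E → ℕ)
    (H : ∀ q : V → V, m * ((univ.image q).card - 1) ≤
      ∑ e ∈ univ.filter (fun e => q (s e) ≠ q (t e)), a e)
    (l : E → ℤ) (β : V → ℤ) (hβ : (m : ℤ) ∣ ∑ v, β v) :
    ∃ x : E → ℤ, (∀ e, l e ≤ x e ∧ x e ≤ l e + a e) ∧
      ∀ v, ∑ e ∈ univ.filter (fun e => s e = v), x e - ∑ e ∈ univ.filter (fun e => t e = v), x e
        ≡ β v [ZMOD m] := by
  obtain ⟨x, h1, h2⟩ := Pool.Agent.Lib.MP_c8786f_co.Elec.cover hm H
    (fun v => β v - (∑ e ∈ univ.filter (fun e => s e = v), l e -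
      ∑ e ∈ univ.filter (fun e => t e = v), l e)) (by
        rwa [sum_sub_distrib, sum_sub_distrib, sum_fiberwise, sum_fiberwise, sub_self, sub_zero])
  refine ⟨fun e => l e + x e, fun e => by have := h1 e; constructor <;> linarith, fun v => ?_⟩
  rw [Int.modEq_iff_dvd, sum_add_distrib, sum_add_distrib, ← dvd_neg]
  have := h2 v
  rwa [show ∀ a b c d e : ℤ, -(e - (c + a - (d + b))) = a - b - (e - (c - d)) from
    fun _ _ _ _ _ => by ring]

end Pool.Agent.Results.MP_c8786f_co.TreePacking
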