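import Pool.Agent.Lib.MP_c8786f_co.Gen.All

/-!
Flows in bridgeless multigraphs (edge `e` oriented from `s e` to `t e`; loops and parallel edges
are allowed, degrees are arbitrary).  `d Y` is the number of edges with exactly one end in `Y`, and
a vertex set contains a cycle when it spans a nonempty set of edges in which all degrees are even.
Let `p / q > 4 k / (k - 4)` and `g = 2 ^ (2 ^ 64 * (p k) ^ 5)`.  If every edge cut with a cycle on
both sides has at least `k` edges, and at least `32 ^ g` edges unless the side has `g` vertices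
of degree at least three, there is an integer flow with `q ≤ |f e| ≤ p - q`; for `k = 21`, `p = 5`,
`q = 1` this is a nowhere-zero five-flow.
-/

namespace Pool.Agent.Results.MP_c8786f_co.WeakFlowAllGraphs

open Finset

theorem result (k p q g : ℕ) (h : 4 * k * q + 4 * p < p * k)
    (hg : g = 2 ^ (2 ^ 64 * (p * k) ^ 5)) :
    ∀ (V E : Type) [Fintype V] [Fintype E] [DecidableEq V] (s t : E → V) (d : Finset V → ℕ)
      (cyc : Finset V → Prop),
    (∀ Y, d Y = (univ.filter fun e => ¬(s e ∈ Y ↔ t e ∈ Y)).card) →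
    (∀ Y, cyc Y ↔ ∃ C : Finset E, C.Nonempty ∧ (∀ e ∈ C, s e ∈ Y ∧ t e ∈ Y) ∧
      ∀ v, Even ((C.filter fun e => s e = v).card + (C.filter fun e => t e = v).card)) →
    (∀ Y, d Y ≠ 1) →
    (∀ Y, cyc Y → cyc Yᶜ →
      k ≤ d Y ∧ (32 ^ g ≤ d Y ∨ g ≤ (Y.filter fun v => 3 ≤ d {v}).card)) →
    ∃ f : E → ℤ, (∀ e, (q : ℤ) ≤ |f e| ∧ |f e| ≤ p - q) ∧
      ∀ v, ∑ e ∈ univ.filter (fun e => s e = v), f e =
        ∑ e ∈ univ.filter (fun e => t e = v), f e := by
  intro V E _ _ _ s t d cyc hd hcyc hb H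
  obtain rfl : d = Pool.Agent.Lib.MP_c8786f_co.W5.cut s t := funext hd
  exact Pool.Agent.Lib.MP_c8786f_co.Gen.all k p q g h hg _ s t le_rfl hb
    fun Y ⟨C, k1, k2, _⟩ ⟨C', k3, k4, _⟩ =>
      H Y ((hcyc _).2 ⟨C, k1, k2⟩) ((hcyc _).2 ⟨C', k3, k4⟩)

end Pool.Agent.Results.MP_c8786f_co.WeakFlowAllGraphs
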